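import Mathlib

set_option autoImplicit false

/-!
# The edge cover polynomial of `G` has at least `δ(G)` distinct roots

Let `m` be the number of edges and `δ` the minimum degree.  The `δ` top coefficients of the edge
cover polynomial `p` are those of `(X + 1) ^ m`, so `D = p' * (X + 1) - m * p` has degree at most
`m - δ`.  The polynomial `p` is divisible, together with its derivative, by a polynomial of degree
`m - r`, where `r` is the number of distinct roots; this polynomial divides `D`, and `D ≠ 0`
because `0` is a root of `p`.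
-/

namespace Pool.Agent.Results.MP_a87573_co.MinDegreeRoots

open Polynomial Finset

variable {V : Type*} [Fintype V] [DecidableEq V]

/-- `numCovers G i` is the number of edge coverings of `G` with exactly `i` edges: sets `S` of `i`
edges of `G` such that every vertex is an endpoint of some member of `S`. -/
def numCovers (G : SimpleGraph V) [DecidableRel G.Adj] (i : ℕ) : ℕ :=
  ((G.edgeFinset.powersetCard i).filter (fun S => ∀ v : V, ∃ e ∈ S, v ∈ e)).card

/-- The edge cover polynomial `∑_{i ≤ m} e(G, i) x^i` of `G`, where `m` is the number of edges. -/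
noncomputable def edgeCoverPoly (G : SimpleGraph V) [DecidableRel G.Adj] : ℂ[X] :=
  ∑ i ∈ range (G.edgeFinset.card + 1), C (numCovers G i : ℂ) * X ^ i

theorem coeff_edgeCoverPoly (G : SimpleGraph V) [DecidableRel G.Adj] (j : ℕ) :
    (edgeCoverPoly G).coeff j = (numCovers G j : ℂ) := by
  unfold edgeCoverPoly
  rw [finsetSum_coeff]
  simp only [coeff_C_mul, coeff_X_pow, mul_ite, mul_one, mul_zero]
  rw [Finset.sum_ite_eq]
  split_ifs with h
  · rfl
  · have hj : G.edgeFinset.card < j := by
      simpa [Nat.lt_succ_iff] using h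
    unfold numCovers
    rw [Finset.powersetCard_eq_empty.mpr hj]
    simp

theorem numCovers_top (G : SimpleGraph V) [DecidableRel G.Adj] (i : ℕ) (hi : i < G.minDegree)
    (hm : i ≤ G.edgeFinset.card) :
    numCovers G (G.edgeFinset.card - i) = (G.edgeFinset.card).choose i := by
  unfold numCovers
  rw [Finset.filter_true_of_mem, Finset.card_powersetCard, Nat.choose_symm hm]
  intro S hS v
  rw [Finset.mem_powersetCard] at hS
  by_contra hcon
  push Not at hcon
  -- the edges at `v` all lie outside `S`
  have hsub : G.incidenceFinset v ⊆ G.edgeFinset \ S := by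
    intro e he
    rw [SimpleGraph.mem_incidenceFinset] at he
    rw [Finset.mem_sdiff]
    refine ⟨by rw [SimpleGraph.mem_edgeFinset]; exact he.1, fun heS => hcon e heS he.2⟩
  have h1 := Finset.card_le_card hsub
  rw [SimpleGraph.card_incidenceFinset_eq_degree, Finset.card_sdiff_of_subset hS.1, hS.2] at h1
  have h2 := G.minDegree_le_degree v
  omega

theorem numCovers_zero [Nonempty V] (G : SimpleGraph V) [DecidableRel G.Adj] :
    numCovers G 0 = 0 := by
  unfold numCovers
  rw [Finset.card_eq_zero, Finset.filter_eq_empty_iff]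
  intro S hS h
  rw [Finset.mem_powersetCard, Finset.card_eq_zero] at hS
  obtain ⟨e, he, -⟩ := h (Classical.arbitrary V)
  rw [hS.2] at he
  simp at he

/-- the main algebraic step -/
theorem roots_ge (p : ℂ[X]) (m d : ℕ) (hp : p.natDegree = m) (hd : 0 < d) (hdm : d ≤ m)
    (htop : ∀ i < d, p.coeff (m - i) = (m.choose i : ℂ)) (h0 : p.coeff 0 = 0) :
    d ≤ p.roots.toFinset.card := by
  classical
  have hm : p.coeff m = 1 := by simpa using htop 0 hd
  have hp0 : p ≠ 0 := by
    rintro rfl
    simp at hm
  set D : ℂ[X] := derivative p * (X + 1) - C (m : ℂ) * p with hD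
  have hcoeff : ∀ j, D.coeff j =
      ((j : ℂ) + 1) * p.coeff (j + 1) + ((j : ℂ) - m) * p.coeff j := by
    intro j
    rw [hD, coeff_sub, mul_add, coeff_add, mul_one, coeff_C_mul]
    cases j with
    | zero => simp [coeff_derivative]; ring
    | succ k =>
      rw [coeff_mul_X, coeff_derivative, coeff_derivative]
      push_cast
      ring
  -- `D ≠ 0`
  have hD0 : D ≠ 0 := by
    intro hz
    -- smallest nonzero coefficient of `p`
    have hex : ∃ k, p.coeff k ≠ 0 := ⟨m, by rw [hm]; exact one_ne_zero⟩
    have hk := Nat.find_spec hex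
    have hmin : ∀ k < Nat.find hex, p.coeff k = 0 := fun k hk => by
      by_contra h
      exact Nat.find_min hex hk h
    have hpos : 0 < Nat.find hex := by
      rw [Nat.find_pos]
      exact fun h => h h0
    obtain ⟨l, hl⟩ : ∃ l, Nat.find hex = l + 1 := ⟨Nat.find hex - 1, by omega⟩
    rw [hl] at hk hmin
    have h1 := hcoeff l
    rw [hz, coeff_zero, hmin l (by omega), mul_zero, add_zero] at h1
    have h2 : ((l : ℂ) + 1) ≠ 0 := by exact_mod_cast Nat.succ_ne_zero l
    exact (mul_ne_zero h2 hk) h1.symm
  -- degree of `D`
  have hDdeg : D.natDegree ≤ m - d := by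
    rw [natDegree_le_iff_coeff_eq_zero]
    intro N hN
    rw [hcoeff]
    by_cases hNm : m < N
    · rw [coeff_eq_zero_of_natDegree_lt (by omega : p.natDegree < N + 1),
        coeff_eq_zero_of_natDegree_lt (by omega : p.natDegree < N)]
      ring
    · obtain ⟨i, hi⟩ : ∃ i, N = m - i ∧ i ≤ m ∧ i < d := ⟨m - N, by omega, by omega, by omega⟩
      obtain ⟨rfl, him, hid⟩ := hi
      rw [htop i hid]
      cases i with
      | zero =>
        rw [coeff_eq_zero_of_natDegree_lt (by omega : p.natDegree < m - 0 + 1)]
        simp
      | succ i =>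
        have h1 : m - (i + 1) + 1 = m - i := by omega
        rw [h1, htop i (by omega)]
        have h2 : ((m - (i + 1) : ℕ) : ℂ) = (m : ℂ) - (i + 1) := by
          rw [Nat.cast_sub him]; push_cast; ring
        rw [h2]
        have h3 : (m.choose (i + 1) : ℂ) * ((i : ℂ) + 1) = (m.choose i : ℂ) * ((m : ℂ) - i) := by
          have := Nat.choose_succ_right_eq m i
          have h4 : ((m - i : ℕ) : ℂ) = (m : ℂ) - i := Nat.cast_sub (by omega)
          rw [← h4]
          exact_mod_cast this
        linear_combination -h3
  -- the common divisor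
  set g : ℂ[X] := ∏ a ∈ p.roots.toFinset, (X - C a) ^ (p.rootMultiplicity a - 1) with hg
  have hcop : ∀ (e : ℂ → ℕ), (↑p.roots.toFinset : Set ℂ).Pairwise
      (Function.onFun IsCoprime fun a => (X - C a) ^ e a) := by
    intro e a _ b _ hab
    exact IsCoprime.pow (isCoprime_X_sub_C_of_isUnit_sub (sub_ne_zero_of_ne hab).isUnit)
  have hgp : g ∣ p := by
    refine Finset.prod_dvd_of_coprime (hcop _) ?_
    intro a _
    exact (pow_dvd_pow _ (Nat.sub_le _ _)).trans (pow_rootMultiplicity_dvd p a)
  have hgp' : g ∣ derivative p := by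
    refine Finset.prod_dvd_of_coprime (hcop _) ?_
    intro a _
    exact pow_sub_one_dvd_derivative_of_pow_dvd (pow_rootMultiplicity_dvd p a)
  have hgD : g ∣ D := dvd_sub (hgp'.mul_right _) (hgp.mul_left _)
  have hgdeg : g.natDegree = ∑ a ∈ p.roots.toFinset, (p.rootMultiplicity a - 1) := by
    rw [hg, natDegree_prod_of_monic _ _ (fun a _ => (monic_X_sub_C a).pow _)]
    refine Finset.sum_congr rfl fun a _ => ?_
    rw [natDegree_pow, natDegree_X_sub_C, mul_one]
  have hsum : ∑ a ∈ p.roots.toFinset, p.rootMultiplicity a = m := by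
    have h1 : Multiset.card p.roots = m := by
      rw [← hp]
      exact (IsAlgClosed.splits p).natDegree_eq_card_roots.symm
    rw [← h1, ← Multiset.toFinset_sum_count_eq]
    exact Finset.sum_congr rfl fun a _ => (count_roots p).symm
  have hsum2 : ∑ a ∈ p.roots.toFinset, (p.rootMultiplicity a - 1) + p.roots.toFinset.card = m := by
    rw [← hsum, Finset.card_eq_sum_ones, ← Finset.sum_add_distrib]
    refine Finset.sum_congr rfl fun a ha => ?_
    have : 0 < p.rootMultiplicity a := by
      rw [rootMultiplicity_pos hp0]
      exact (mem_roots hp0).mp (Multiset.mem_toFinset.mp ha)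
    omega
  have h5 := natDegree_le_of_dvd hgD hD0
  omega

/-- For every finite simple graph `G`, the edge cover polynomial of `G` has at least `δ(G)` distinct
complex roots. -/
theorem result (G : SimpleGraph V) [DecidableRel G.Adj] :
    (G.minDegree : ℕ∞) ≤ {z : ℂ | (edgeCoverPoly G).eval z = 0}.encard := by
  classical
  by_cases hd : G.minDegree = 0
  · simp [hd]
  have hdpos : 0 < G.minDegree := Nat.pos_of_ne_zero hd
  have hne : Nonempty V := by
    by_contra h
    rw [not_nonempty_iff] at h
    exact hd (by simp [SimpleGraph.minDegree])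
  set m := G.edgeFinset.card with hm
  have hdm : G.minDegree ≤ m := by
    obtain ⟨v⟩ := hne
    calc G.minDegree ≤ G.degree v := G.minDegree_le_degree v
      _ = (G.incidenceFinset v).card := (G.card_incidenceFinset_eq_degree v).symm
      _ ≤ m := Finset.card_le_card (G.incidenceFinset_subset v)
  have htop : ∀ i < G.minDegree, (edgeCoverPoly G).coeff (m - i) = (m.choose i : ℂ) := by
    intro i hi
    rw [coeff_edgeCoverPoly, numCovers_top G i hi (by omega)]
  have hdeg : (edgeCoverPoly G).natDegree = m := by
    refine le_antisymm ?_ ?_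
    · unfold edgeCoverPoly
      refine natDegree_sum_le_of_forall_le _ _ ?_
      intro i hi
      refine (natDegree_C_mul_X_pow_le _ _).trans ?_
      rw [Finset.mem_range] at hi
      omega
    · refine le_natDegree_of_ne_zero ?_
      have := htop 0 hdpos
      simp only [Nat.sub_zero, Nat.choose_zero_right, Nat.cast_one] at this
      rw [this]
      exact one_ne_zero
  have key := roots_ge (edgeCoverPoly G) m G.minDegree hdeg hdpos hdm htop
    (by rw [coeff_edgeCoverPoly, numCovers_zero]; simp)
  have hp0 : edgeCoverPoly G ≠ 0 := by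
    intro h
    rw [h] at hdeg
    simp at hdeg
    omega
  have hset : {z : ℂ | (edgeCoverPoly G).eval z = 0} =
      ((edgeCoverPoly G).roots.toFinset : Set ℂ) := by
    ext z
    simp [hp0, IsRoot]
  rw [hset, Set.encard_coe_eq_coe_finsetCard]
  exact_mod_cast key

end Pool.Agent.Results.MP_a87573_co.MinDegreeRoots
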